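import Pool.Agent.helper88.RL.SpecL
import Pool.Agent.helper11.T6.C3

set_option autoImplicit false

/-!
Project RL (MP_16912e_nt), row rl:Z7 (the special vectors).
-/

namespace Pool.Agent.RL

open Finset Pool.Agent.helper3.FT Pool.Agent.T6 Pool.Agent.RF

theorem Z7_nd (z : OO) : z.norm = z.re * z.re + z.re * z.im - z.im * z.im := by
  rw [QuadraticAlgebra.norm_def]
  ring

theorem Z7_norm_dvd {x y : OO} (h : x ∣ y) : x.norm ∣ y.norm := by
  obtain ⟨w, rfl⟩ := h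
  rw [map_mul]
  exact dvd_mul_right _ _

theorem Z7_star_dvd {x y : OO} (h : x ∣ y) : star x ∣ star y := by
  obtain ⟨w, rfl⟩ := h
  rw [star_mul']
  exact dvd_mul_right _ _

theorem Z7_mul_star (z : OO) : z * star z = (z.norm : OO) := by
  rw [← QuadraticAlgebra.algebraMap_norm_eq_mul_star]
  exact eq_intCast _ _

theorem Z7_ph : ph * star ph = (-1 : OO) := by
  ext <;> simp [ph, QuadraticAlgebra.re_one, QuadraticAlgebra.im_one]

theorem Z7_sub (x : OO) : x - star x = (x.im : OO) * r5 := by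
  ext <;> (simp [r5]; try ring)

theorem Z7_25 (a z : OO) (hz : z.norm ≠ 0) (h : 5 * a * star z ^ 2 = -(star ph ^ 3 * z ^ 3)) : 25 * a.norm = - z.norm := by
  have h1 := congrArg QuadraticAlgebra.norm h
  have h5 : QuadraticAlgebra.norm (5 : OO) = 25 := by
    have h2 := QuadraticAlgebra.norm_natCast (R := ℤ) (a := 1) (b := 1) 5
    norm_num at h2
    exact h2
  have hph : QuadraticAlgebra.norm ph = -1 := by
    rw [Z7_nd]
    simp [ph]
  rw [QuadraticAlgebra.norm_neg, map_mul, map_mul, map_mul, map_pow, map_pow, map_pow, QuadraticAlgebra.norm_star,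
    QuadraticAlgebra.norm_star, h5, hph] at h1
  have h2 : z.norm ^ 2 * (25 * a.norm) = z.norm ^ 2 * (- z.norm) := by
    linear_combination h1
  exact mul_left_cancel₀ (pow_ne_zero 2 hz) h2

/-- the norm is powerful -/
theorem Z7_pow (h1 : WEU_stmt) (a z : OO) (hz : z.norm ≠ 0) (h : 5 * a * star z ^ 2 = -(star ph ^ 3 * z ^ 3)) (p : ℕ)
    (hp : p.Prime) (hpz : (p : ℤ) ∣ z.norm) : (p : ℤ) ^ 2 ∣ z.norm := by
  obtain ⟨hdom, hpid⟩ := h1
  have h25 := Z7_25 a z hz h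
  by_cases h5 : p = 5
  · subst h5
    refine ⟨- a.norm, ?_⟩
    push_cast
    linarith
  have hA : star z ^ 2 ∣ z ^ 3 := by
    refine ⟨ph ^ 3 * (5 * a), ?_⟩
    linear_combination (-(ph ^ 3)) * h + z ^ 3 * ((ph * star ph) ^ 2 - ph * star ph + 1) * Z7_ph
  have hB : z ^ 2 ∣ star z ^ 3 := by
    have h2 := Z7_star_dvd hA
    simpa only [star_pow, star_star] using h2
  have hp0 : (p : OO) ≠ 0 := by
    intro h2
    have h3 := congrArg QuadraticAlgebra.norm h2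
    rw [QuadraticAlgebra.norm_natCast, QuadraticAlgebra.norm_zero] at h3
    have h4 : (p : ℤ) ≠ 0 := by exact_mod_cast hp.ne_zero
    exact h4 (pow_eq_zero_iff (two_ne_zero)|>.1 h3)
  have hpu : ¬ IsUnit (p : OO) := by
    intro h2
    have h3 := QuadraticAlgebra.isUnit_iff_norm_isUnit.1 h2
    rw [QuadraticAlgebra.norm_natCast, isUnit_pow_iff two_ne_zero, Int.isUnit_iff_natAbs_eq, Int.natAbs_natCast] at h3
    exact hp.one_lt.ne' h3
  obtain ⟨π, hπ, hπp⟩ := WfDvdMonoid.exists_irreducible_factor hpu hp0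
  have hprime : Prime π := hπ.prime
  have hzz : π ∣ z * star z := by
    refine hπp.trans ?_
    rw [Z7_mul_star]
    obtain ⟨c, hc⟩ := hpz
    rw [hc]
    push_cast
    exact dvd_mul_right _ _
  have hπz : π ∣ z ∧ π ∣ star z := by
    rcases hprime.dvd_or_dvd hzz with h2 | h2
    · exact ⟨h2, hprime.dvd_of_dvd_pow ((dvd_pow h2 two_ne_zero).trans hB)⟩
    · exact ⟨hprime.dvd_of_dvd_pow ((dvd_pow h2 two_ne_zero).trans hA), h2⟩
  have hN : π.norm.natAbs ∣ p ^ 2 := by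
    have h2 := Z7_norm_dvd hπp
    rw [QuadraticAlgebra.norm_natCast] at h2
    have h3 := Int.natAbs_dvd_natAbs.2 h2
    rwa [Int.natAbs_pow, Int.natAbs_natCast] at h3
  obtain ⟨k, hk, hk'⟩ := (Nat.dvd_prime_pow hp).1 hN
  have hkc : k = 0 ∨ k = 1 ∨ k = 2 := by omega
  rcases hkc with rfl | rfl | rfl
  · exfalso
    apply hπ.not_isUnit
    refine QuadraticAlgebra.isUnit_iff_norm_isUnit.2 ?_
    rw [Int.isUnit_iff_natAbs_eq, hk', pow_zero]
  · rw [pow_one] at hk'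
    have hpd : (p : ℤ) ∣ π.norm := by
      rw [← hk']
      exact Int.natAbs_dvd.2 dvd_rfl
    have hsz : star π ∣ z := by
      have h2 := Z7_star_dvd hπz.2
      rwa [star_star] at h2
    obtain ⟨w, hw⟩ := hsz
    have h2 : π ∣ star π * w := by
      rw [← hw]
      exact hπz.1
    rcases hprime.dvd_or_dvd h2 with h3 | h3
    · exfalso
      have h4 : π ∣ (π.im : OO) * r5 := by
        rw [← Z7_sub]
        exact dvd_sub dvd_rfl h3
      have h5' := Z7_norm_dvd h4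
      rw [map_mul, QuadraticAlgebra.norm_intCast] at h5'
      have hr5 : QuadraticAlgebra.norm r5 = -5 := by
        rw [Z7_nd]
        simp [r5]
      rw [hr5] at h5'
      have hpp : Prime (p : ℤ) := Nat.prime_iff_prime_int.1 hp
      have him : (p : ℤ) ∣ π.im := by
        rcases hpp.dvd_or_dvd (hpd.trans h5') with h6 | h6
        · exact hpp.dvd_of_dvd_pow h6
        · exfalso
          have h7 : (p : ℤ) ∣ 5 := by
            have h8 := (dvd_neg).2 h6
            simpa using h8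
          have h9 : p ∣ 5 := by exact_mod_cast h7
          exact h5 ((Nat.prime_dvd_prime_iff_eq hp (by norm_num)).1 h9)
      have hre : (p : ℤ) ∣ π.re := by
        rw [Z7_nd] at hpd
        have h6 : (p : ℤ) ∣ π.re * π.re := by
          have h7 : π.re * π.re = (π.re * π.re + π.re * π.im - π.im * π.im) - π.im * (π.re - π.im) := by ring
          rw [h7]
          exact dvd_sub hpd (him.mul_right _)
        rcases hpp.dvd_or_dvd h6 with h7 | h7 <;> exact h7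
      obtain ⟨x, hx⟩ := hre
      obtain ⟨y, hy⟩ := him
      have h6 : (p : ℤ) ^ 2 ∣ π.norm := by
        rw [Z7_nd, hx, hy]
        exact ⟨x * x + x * y - y * y, by ring⟩
      have h7 := Int.natAbs_dvd_natAbs.2 h6
      rw [hk', Int.natAbs_pow, Int.natAbs_natCast] at h7
      have h8 := Nat.le_of_dvd hp.pos h7
      have h9 := hp.one_lt
      nlinarith
    · obtain ⟨w', rfl⟩ := h3
      rw [hw, map_mul, map_mul, QuadraticAlgebra.norm_star]
      obtain ⟨c, hc⟩ := hpd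
      rw [hc]
      exact ⟨c * c * w'.norm, by ring⟩
  · have h2 := Z7_norm_dvd hπz.1
    have h3 : (p : ℤ) ^ 2 ∣ π.norm := by
      have h4 : ((p ^ 2 : ℕ) : ℤ) ∣ π.norm := by
        rw [← hk']
        exact Int.natAbs_dvd.2 dvd_rfl
      push_cast at h4
      exact h4
    exact h3.trans h2

/-- the number of powerful numbers -/
theorem Z7_cnt : ∃ G : ℝ, 1 ≤ G ∧ ∀ X : ℝ, 1 ≤ X → ∀ P : Finset ℕ, (∀ m ∈ P, 1 ≤ m ∧ (m : ℝ) ≤ X ^ 2 ∧
    ∀ p : ℕ, p.Prime → p ∣ m → p ^ 2 ∣ m) → (P.card : ℝ) ≤ G * X := by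
  classical
  obtain ⟨G, hG0, hG⟩ := C3_sum
  refine ⟨G + 1, by linarith, fun X hX P hP => ?_⟩
  obtain ⟨N, hN⟩ : ∃ N : ℕ, N = ⌊X ^ 2⌋₊ := ⟨_, rfl⟩
  have hsub : P ⊆ (Icc 1 N).biUnion (fun c => (Icc 1 ⌊X / ((c : ℝ) * √c)⌋₊).image (fun a => a ^ 2 * c ^ 3)) := by
    intro m hm
    obtain ⟨h1, h2, h3⟩ := hP m hm
    obtain ⟨a, c, ha, hc, e⟩ := C3_pow m h1 h3
    have hcr : (1 : ℝ) ≤ c := by exact_mod_cast hc
    have har : (1 : ℝ) ≤ a := by exact_mod_cast ha
    have hmr : (m : ℝ) = (a : ℝ) ^ 2 * (c : ℝ) ^ 3 := by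
      rw [e]
      push_cast
      ring
    have hsq : √(c : ℝ) ^ 2 = c := Real.sq_sqrt (by linarith)
    have hpos : 0 < (c : ℝ) * √c := mul_pos (by linarith) (Real.sqrt_pos.2 (by linarith))
    rw [mem_biUnion]
    refine ⟨c, ?_, ?_⟩
    · rw [mem_Icc]
      refine ⟨hc, ?_⟩
      rw [hN]
      apply Nat.le_floor
      have h4 : (c : ℝ) ≤ (a : ℝ) ^ 2 * (c : ℝ) ^ 3 := by
        have h5 : (1 : ℝ) ≤ (a : ℝ) ^ 2 := one_le_pow₀ har
        have h6 : (c : ℝ) ≤ (c : ℝ) ^ 3 := by nlinarith [mul_nonneg (sub_nonneg.2 hcr) (sub_nonneg.2 hcr)]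
        nlinarith
      linarith
    · rw [mem_image]
      refine ⟨a, ?_, e.symm⟩
      rw [mem_Icc]
      refine ⟨ha, ?_⟩
      apply Nat.le_floor
      rw [le_div_iff₀ hpos]
      have h4 : ((a : ℝ) * ((c : ℝ) * √c)) ^ 2 ≤ X ^ 2 := by
        calc ((a : ℝ) * ((c : ℝ) * √c)) ^ 2 = (a : ℝ) ^ 2 * ((c : ℝ) ^ 2 * √(c : ℝ) ^ 2) := by ring
          _ = (a : ℝ) ^ 2 * (c : ℝ) ^ 3 := by rw [hsq]; ring
          _ ≤ X ^ 2 := by rw [← hmr]; exact h2
      exact le_of_sq_le_sq h4 (by linarith)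
  have h1 : (P.card : ℝ) ≤ ∑ c ∈ Icc 1 N, X / ((c : ℝ) * √c) := by
    calc (P.card : ℝ) ≤ (((Icc 1 N).biUnion (fun c => (Icc 1 ⌊X / ((c : ℝ) * √c)⌋₊).image (fun a => a ^ 2 * c ^ 3))).card : ℝ) := by
          exact_mod_cast card_le_card hsub
      _ ≤ ((∑ c ∈ Icc 1 N, ((Icc 1 ⌊X / ((c : ℝ) * √c)⌋₊).image (fun a => a ^ 2 * c ^ 3)).card : ℕ) : ℝ) := by
          exact_mod_cast card_biUnion_le
      _ ≤ ∑ c ∈ Icc 1 N, X / ((c : ℝ) * √c) := by
          push_cast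
          refine sum_le_sum fun c _ => ?_
          have h2 : (((Icc 1 ⌊X / ((c : ℝ) * √c)⌋₊).image (fun a => a ^ 2 * c ^ 3)).card : ℝ) ≤ (⌊X / ((c : ℝ) * √c)⌋₊ : ℝ) := by
            have h3 := card_image_le (s := Icc 1 ⌊X / ((c : ℝ) * √c)⌋₊) (f := fun a => a ^ 2 * c ^ 3)
            rw [Nat.card_Icc, Nat.add_sub_cancel] at h3
            exact_mod_cast h3
          exact h2.trans (Nat.floor_le (by positivity))
  have h2 : ∑ c ∈ Icc 1 N, X / ((c : ℝ) * √c) = X * ∑ c ∈ Icc 1 N, 1 / ((c : ℝ) * √c) := by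
    rw [mul_sum]
    exact sum_congr rfl fun c _ => by ring
  rw [h2] at h1
  have h3 := mul_le_mul_of_nonneg_left (hG (Icc 1 N)) (by linarith : (0 : ℝ) ≤ X)
  nlinarith

theorem Z7 (h1 : WEU_stmt) (h2 : WVA_stmt) (h3 : WDB_stmt) : Z7_stmt := by
  classical
  intro ε hε
  have hdom : IsDomain OO := h1.1
  obtain ⟨C₁, hC₁, hW⟩ := h3 ε 2 hε
  obtain ⟨G, hG1, hG⟩ := Z7_cnt
  obtain ⟨-, -, -, -, -, -, hne⟩ := h2
  refine ⟨2 * C₁ * (4 : ℝ) ^ ε * G, ?_, fun b V F hb hV hF => ?_⟩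
  · have h4 : (1 : ℝ) ≤ (4 : ℝ) ^ ε := Real.one_le_rpow (by norm_num) hε.le
    have h5 : (1 : ℝ) ≤ C₁ * (4 : ℝ) ^ ε := one_le_mul_of_one_le_of_one_le hC₁ h4
    have h6 : (1 : ℝ) ≤ C₁ * (4 : ℝ) ^ ε * G := one_le_mul_of_one_le_of_one_le h5 hG1
    linarith
  obtain ⟨T, hT⟩ : ∃ T : ℕ, T = ⌈3 * V⌉₊ := ⟨_, rfl⟩
  have hT3 : 3 * V ≤ (T : ℝ) := by
    rw [hT]
    exact Nat.le_ceil _
  have hT4 : (T : ℝ) ≤ 4 * V := by
    have h4 := Nat.ceil_lt_add_one (show 0 ≤ 3 * V by linarith)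
    rw [← hT] at h4
    linarith
  have hT1 : 1 ≤ T := by
    have h4 : (1 : ℝ) ≤ (T : ℝ) := by linarith
    exact_mod_cast h4
  -- coordinates
  have hco : ∀ v ∈ F, |((vz4 v).re : ℝ)| ≤ V ∧ |((vz4 v).im : ℝ)| ≤ V := by
    intro v hv
    have h4 := (hF v hv).1
    unfold nrm at h4
    have h5 := (max_le_iff.1 h4).2
    exact ⟨(max_le_iff.1 h5).1, (max_le_iff.1 h5).2⟩
  have hinj : Set.InjOn vz4 (F : Set V4) := by
    intro v hv w hw hvw
    have hv2 := hF v hv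
    have hw2 := hF w hw
    have h4 : va4 v = va4 w := by
      have h5 : 5 * va4 v * star (vz4 v) ^ 2 = 5 * va4 w * star (vz4 v) ^ 2 := by
        rw [hv2.2.2, hvw, hw2.2.2]
      have h6 : star (vz4 v) ^ 2 ≠ 0 := by
        apply pow_ne_zero
        intro h7
        exact hv2.2.1 (star_eq_zero.1 h7)
      have h8 := mul_right_cancel₀ h6 h5
      have h9 : (5 : OO) ≠ 0 := by
        intro h
        have h1 := congrArg QuadraticAlgebra.re h
        rw [QuadraticAlgebra.re_ofNat, QuadraticAlgebra.re_zero] at h1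
        norm_num at h1
      exact mul_left_cancel₀ h9 h8
    have e1 := congrArg QuadraticAlgebra.re h4
    have e2 := congrArg QuadraticAlgebra.im h4
    have e3 := congrArg QuadraticAlgebra.re hvw
    have e4 := congrArg QuadraticAlgebra.im hvw
    obtain ⟨x1, x2, x3, x4⟩ := v
    obtain ⟨y1, y2, y3, y4⟩ := w
    simp only [va4, vz4] at e1 e2 e3 e4
    rw [e1, e2, e3, e4]
  obtain ⟨S, hS⟩ : ∃ S : Finset OO, S = F.image vz4 := ⟨_, rfl⟩
  have hcard : F.card = S.card := by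
    rw [hS, card_image_of_injOn hinj]
  have hSp : ∀ z ∈ S, z ≠ 0 ∧ |(z.re : ℝ)| ≤ V ∧ |(z.im : ℝ)| ≤ V ∧ ∃ a : OO, 5 * a * star z ^ 2 = -(star ph ^ 3 * z ^ 3) := by
    intro z hz
    rw [hS, mem_image] at hz
    obtain ⟨v, hv, rfl⟩ := hz
    exact ⟨(hF v hv).2.1, (hco v hv).1, (hco v hv).2, va4 v, (hF v hv).2.2⟩
  have hnorm : ∀ z ∈ S, ((z.norm.natAbs : ℕ) : ℝ) ≤ 3 * V ^ 2 := by
    intro z hz
    obtain ⟨-, h4, h5, -⟩ := hSp z hz
    rw [Nat.cast_natAbs, Z7_nd]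
    push_cast
    have h6 : |(z.re : ℝ) * z.re| ≤ V ^ 2 := by
      rw [abs_mul, pow_two]
      exact mul_le_mul h4 h4 (abs_nonneg _) (by linarith)
    have h7 : |(z.re : ℝ) * z.im| ≤ V ^ 2 := by
      rw [abs_mul, pow_two]
      exact mul_le_mul h4 h5 (abs_nonneg _) (by linarith)
    have h8 : |(z.im : ℝ) * z.im| ≤ V ^ 2 := by
      rw [abs_mul, pow_two]
      exact mul_le_mul h5 h5 (abs_nonneg _) (by linarith)
    calc |(z.re : ℝ) * z.re + z.re * z.im - z.im * z.im| ≤ |(z.re : ℝ) * z.re + z.re * z.im| + |(z.im : ℝ) * z.im| := abs_sub _ _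
      _ ≤ |(z.re : ℝ) * z.re| + |(z.re : ℝ) * z.im| + |(z.im : ℝ) * z.im| := by
          have h9 := abs_add_le ((z.re : ℝ) * z.re) ((z.re : ℝ) * z.im)
          linarith
      _ ≤ 3 * V ^ 2 := by linarith
  -- the powerful numbers
  have hP := hG (2 * V) (by linarith) (S.image (fun z => z.norm.natAbs)) (by
    intro m hm
    rw [mem_image] at hm
    obtain ⟨z, hz, rfl⟩ := hm
    obtain ⟨h4, -, -, a, ha⟩ := hSp z hz
    have h5 := (hne z h4).1
    refine ⟨Int.natAbs_pos.2 h5, ?_, fun p hp hpd => ?_⟩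
    · have h6 := hnorm z hz
      nlinarith
    · have h6 : (p : ℤ) ∣ z.norm := Int.natCast_dvd.2 hpd
      have h7 := Z7_pow h1 a z h5 ha p hp h6
      have h8 := Int.natAbs_dvd_natAbs.2 h7
      rwa [Int.natAbs_pow, Int.natAbs_natCast] at h8)
  -- the fibres
  have hfib : ∀ m ∈ S.image (fun z => z.norm.natAbs), (S.filter (fun z => z.norm.natAbs = m)).card ≤ ⌊C₁ * (T : ℝ) ^ ε⌋₊ := by
    intro m hm
    apply Nat.le_floor
    rw [mem_image] at hm
    obtain ⟨z₀, hz₀, rfl⟩ := hm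
    have hm0 : ((z₀.norm.natAbs : ℕ) : ℤ) ≠ 0 := by
      have h4 := (hne z₀ (hSp z₀ hz₀).1).1
      simpa using h4
    have hV2 : 3 * V ^ 2 ≤ (T : ℝ) ^ 2 := by nlinarith
    refine hW T hT1 ((z₀.norm.natAbs : ℕ) : ℤ) hm0 ?_ _ ?_
    · rw [Int.cast_natCast, abs_of_nonneg (Nat.cast_nonneg _)]
      have h4 := hnorm z₀ hz₀
      linarith
    · intro z hz
      rw [mem_filter] at hz
      obtain ⟨hz1, hz2⟩ := hz
      obtain ⟨-, h4, h5, -⟩ := hSp z hz1
      have hs5 : √(5 : ℝ) ≤ 3 := by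
        rw [Real.sqrt_le_left (by norm_num)]
        norm_num
      have hs0 : 0 ≤ √(5 : ℝ) := Real.sqrt_nonneg _
      have hVT : 3 * V ≤ (T : ℝ) ^ 2 := by nlinarith
      refine ⟨?_, ?_, ?_⟩
      · rw [← hz2]
        have h6 : z ∣ (z.norm : OO) := by
          rw [← Z7_mul_star]
          exact dvd_mul_right _ _
        rcases Int.natAbs_eq z.norm with h7 | h7
        · rw [← h7]
          exact h6
        · have h8 : ((z.norm.natAbs : ℕ) : ℤ) = - z.norm := by linarith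
          rw [h8, Int.cast_neg]
          exact (dvd_neg).2 h6
      · unfold va
        have h6 : |(z.im : ℝ) * ((1 + √5) / 2)| ≤ V * 2 := by
          rw [abs_mul]
          refine mul_le_mul h5 ?_ (abs_nonneg _) (by linarith)
          rw [abs_of_nonneg (by positivity)]
          linarith
        have h7 := abs_add_le (z.re : ℝ) ((z.im : ℝ) * ((1 + √5) / 2))
        linarith
      · unfold vb
        have h6 : |(z.im : ℝ) * ((1 - √5) / 2)| ≤ V * 2 := by
          rw [abs_mul]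
          refine mul_le_mul h5 ?_ (abs_nonneg _) (by linarith)
          rw [abs_le]
          constructor <;> linarith
        have h7 := abs_add_le (z.re : ℝ) ((z.im : ℝ) * ((1 - √5) / 2))
        linarith
  have hmain := card_le_mul_card_image S ⌊C₁ * (T : ℝ) ^ ε⌋₊ hfib
  have hTe : (T : ℝ) ^ ε ≤ (4 : ℝ) ^ ε * V ^ ε := by
    rw [← Real.mul_rpow (by norm_num) (by linarith)]
    exact Real.rpow_le_rpow (by positivity) hT4 hε.le
  have hT0 : (0 : ℝ) ≤ (T : ℝ) ^ ε := Real.rpow_nonneg (by positivity) _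
  rw [hcard]
  calc (S.card : ℝ) ≤ ((⌊C₁ * (T : ℝ) ^ ε⌋₊ * (S.image (fun z => z.norm.natAbs)).card : ℕ) : ℝ) := by exact_mod_cast hmain
    _ = (⌊C₁ * (T : ℝ) ^ ε⌋₊ : ℝ) * ((S.image (fun z => z.norm.natAbs)).card : ℝ) := by push_cast; ring
    _ ≤ (C₁ * (T : ℝ) ^ ε) * (G * (2 * V)) := by
        refine mul_le_mul (Nat.floor_le (by positivity)) hP (by positivity) (by positivity)
    _ ≤ (C₁ * ((4 : ℝ) ^ ε * V ^ ε)) * (G * (2 * V)) := by
        refine mul_le_mul_of_nonneg_right (mul_le_mul_of_nonneg_left hTe (by linarith)) (by positivity)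
    _ = 2 * C₁ * (4 : ℝ) ^ ε * G * (V * V ^ ε) := by ring
    _ = 2 * C₁ * (4 : ℝ) ^ ε * G * V ^ (1 + ε) := by
        rw [Real.rpow_add (by linarith), Real.rpow_one]

end Pool.Agent.RL
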